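import Pool.Agent.H699.MX.Defs

set_option autoImplicit false

open MeasureTheory Finset
open scoped Classical

namespace Pool.Agent.H880.MX.Shift

open Pool.Agent.H699.MX

/-- small intervals have small mass -/
theorem modl (hLPR : S_LPR) (hMOD : S_MOD) (μ : Measure ℝ) (a b : ℝ) (hg : Good μ a b) (d n : ℕ)
    (ε η : ℝ) (hε : 0 ≤ ε) (hη : 0 ≤ η) (hμ : ∀ z, μ.real (Set.Icc z (z + η)) ≤ ε)
    (hn : 1 ≤ n) (T : RT) (hT : T.Wd d) (s : Bool) (x : ℝ) (hx : 0 ≤ x) :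
    (law μ b n T s).real (Set.Ioc x (x + η)) ≤ d * ε := by
  obtain ⟨n', rfl⟩ : ∃ n', n = n' + 1 := ⟨n - 1, by omega⟩
  cases T with
  | node k c =>
    have hk : k ≤ d := hT.1
    have hpr : IsProbabilityMeasure μ := ⟨hg.prob⟩
    have h := hMOD μ k (fun i => law μ b n' (c i) (!s)) x (x + η) ε hpr
      (fun i => (hLPR μ a b hg n' (c i)).1 (!s)) hx (by linarith) (fun z => by
        rw [add_sub_cancel_left]; exact hμ z)
    have h2 : (k : ℝ) * ε ≤ d * ε := mul_le_mul_of_nonneg_right (by exact_mod_cast hk) hε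
    exact h.trans h2

/-- the iterated step -/
theorem iter (hPRE : S_PRE) (μ : Measure ℝ) (a b : ℝ) (hg : Good μ a b) (d M : ℕ) (S₀ ι ρ : ℝ)
    (hS₀ : 0 < S₀) (hι : 0 < ι) (hρ : 0 < ρ)
    (hstep : ∀ θ : ℝ, 0 < θ → ∃ θ' : ℝ, 0 < θ' ∧
      ∀ (m : ℕ), M ≤ m → ∀ S : ℝ, S₀ ≤ S →
      (∀ T : RT, T.Wd d → Dom S (law μ b m T false) (law μ b m T true)) →
      ∀ (η e σ α β : ℝ), 0 ≤ η → η ≤ S₀ / 8 → 0 ≤ e → e ≤ S₀ / 8 → S₀ / 16 ≤ σ →
        σ + ρ ≤ S₀ / 8 → α ≤ β → ∀ T : RT, T.Wd d → St μ a b (m + 1) S η T α β σ e θ' →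
        ∃ (T' : RT) (α' β' : ℝ), T'.Wd d ∧ β - α + ι ≤ β' - α' ∧
          St μ a b m S η T' α' β' (σ + ρ) (e + η) θ) (j : ℕ) :
    ∃ θ : ℝ, 0 < θ ∧
      ∀ (m : ℕ), M ≤ m → ∀ S : ℝ, S₀ ≤ S →
      (∀ T : RT, T.Wd d → Dom S (law μ b m T false) (law μ b m T true)) →
      ∀ (η e σ α β : ℝ), 0 ≤ η → η ≤ S₀ / 8 → 0 ≤ e → e + j * η ≤ S₀ / 8 → S₀ / 16 ≤ σ →
        σ + j * ρ ≤ S₀ / 8 → α ≤ β → ∀ T : RT, T.Wd d → St μ a b (m + j) S η T α β σ e θ →
        ∃ (T' : RT) (α' β' : ℝ), T'.Wd d ∧ β - α + j * ι ≤ β' - α' ∧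
          St μ a b m S η T' α' β' (σ + j * ρ) (e + j * η) 1 := by
  induction j with
  | zero =>
    refine ⟨1, one_pos, ?_⟩
    intro m _ S _ _ η e σ α β _ _ _ _ _ _ _ T hT hSt
    refine ⟨T, α, β, hT, ?_, ?_⟩
    · simp
    · simpa using hSt
  | succ j ih =>
    obtain ⟨θ, hθ, hj⟩ := ih
    obtain ⟨θ', hθ', h1⟩ := hstep θ hθ
    refine ⟨θ', hθ', ?_⟩
    intro m hm S hS hDom η e σ α β hη hη8 he he8 hσ hσ8 hαβ T hT hSt
    have hjη : 0 ≤ (j : ℝ) * η := by positivity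
    have hjρ : 0 ≤ (j : ℝ) * ρ := by positivity
    push_cast at he8 hσ8 ⊢
    have hDj := hPRE μ a b hg d m S (by linarith) hDom (m + j) (by omega)
    obtain ⟨T₁, α₁, β₁, hT₁, hαβ₁, hSt₁⟩ := h1 (m + j) (by omega) S hS hDj η e σ α β hη hη8 he
      (by linarith) hσ (by linarith) hαβ T hT hSt
    obtain ⟨T₂, α₂, β₂, hT₂, hαβ₂, hSt₂⟩ := hj m hm S hS hDom η (e + η) (σ + ρ) α₁ β₁ hη hη8
      (by linarith) (by linarith) (by linarith) (by linarith) (by linarith) T₁ hT₁ hSt₁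
    refine ⟨T₂, α₂, β₂, hT₂, by linarith, ?_⟩
    have e1 : σ + ρ + j * ρ = σ + (j + 1) * ρ := by ring
    have e2 : e + η + j * η = e + (j + 1) * η := by ring
    rw [e1, e2] at hSt₂
    exact hSt₂

theorem t_CON : S_CHN → S_ZON → S_LPR → S_MOD → S_UNI → S_PRE → S_CON := by
  intro hCHN hZON hLPR hMOD hUNI hPRE μ a b hg d
  obtain ⟨M1, hM1⟩ := hCHN μ a b hg d
  obtain ⟨M2, hM2⟩ := hZON μ a b hg d
  refine ⟨max (max M1 M2) 1, fun S₀ hS₀ => ?_⟩
  obtain ⟨ι, hι, hch⟩ := hM1 S₀ hS₀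
  obtain ⟨N, hN1, hNι⟩ : ∃ N : ℕ, 1 ≤ N ∧ b + S₀ < N * ι := by
    obtain ⟨N, hN⟩ := exists_nat_gt ((b + S₀) / ι)
    refine ⟨N + 1, by omega, ?_⟩
    rw [div_lt_iff₀ hι] at hN
    push_cast
    linarith
  have hN0 : (0 : ℝ) < N := by exact_mod_cast hN1
  have hN1' : (1 : ℝ) ≤ N := by exact_mod_cast hN1
  obtain ⟨ρ, hρd⟩ : ∃ ρ : ℝ, ρ = S₀ / (16 * N) := ⟨_, rfl⟩
  have hρ : 0 < ρ := by rw [hρd]; positivity
  have hNρ : (N : ℝ) * ρ = S₀ / 16 := by rw [hρd]; field_simp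
  obtain ⟨θ, hθ, hit⟩ := iter hPRE μ a b hg d M1 S₀ ι ρ hS₀ hι hρ (hch ρ hρ) N
  obtain ⟨θz, hθz, hz⟩ := hM2 (S₀ / 8) (by linarith)
  have hd0 : (0 : ℝ) < (d : ℝ) + 1 := by positivity
  have hmin : 0 < min θ θz := lt_min hθ hθz
  obtain ⟨ε, hεd⟩ : ∃ ε : ℝ, ε = min θ θz / ((d : ℝ) + 1) := ⟨_, rfl⟩
  have hε : 0 < ε := by rw [hεd]; exact div_pos hmin hd0
  have hdε : (d : ℝ) * ε ≤ min θ θz := by
    have h : ((d : ℝ) + 1) * ε = min θ θz := by
      rw [hεd, mul_div_cancel₀ _ hd0.ne']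
    linarith
  obtain ⟨η', hη', hu⟩ := (hUNI μ a b hg).1 ε hε
  obtain ⟨η, hηd⟩ : ∃ η : ℝ, η = min η' (S₀ / (8 * N)) := ⟨_, rfl⟩
  have hη : 0 < η := by rw [hηd]; exact lt_min hη' (by positivity)
  have hη1 : η ≤ η' := by rw [hηd]; exact min_le_left _ _
  have hη2 : η ≤ S₀ / (8 * N) := by rw [hηd]; exact min_le_right _ _
  have hNη : (N : ℝ) * η ≤ S₀ / 8 := by
    calc (N : ℝ) * η ≤ N * (S₀ / (8 * N)) := mul_le_mul_of_nonneg_left hη2 hN0.le
      _ = S₀ / 8 := by field_simp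
  have hη8 : η ≤ S₀ / 8 := by nlinarith
  have hpr : IsProbabilityMeasure μ := ⟨hg.prob⟩
  have hu' : ∀ z, μ.real (Set.Icc z (z + η)) ≤ ε := fun z =>
    (measureReal_mono (Set.Icc_subset_Icc_right (by linarith)) (measure_ne_top _ _)).trans (hu z)
  refine ⟨N, η, hη, by linarith, fun m hm S hS hDom T hT t ht => ?_⟩
  have hm1 : M1 ≤ m := le_trans (le_trans (le_max_left _ _) (le_max_left _ _)) hm
  have hm2 : M2 ≤ m := le_trans (le_trans (le_max_right _ _) (le_max_left _ _)) hm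
  obtain ⟨hprob, hlo0, hlohi, hhib, hlo, hhi⟩ := hLPR μ a b hg (m + N) T
  have hpt : IsProbabilityMeasure (law μ b (m + N) T true) := hprob true
  have hpf : IsProbabilityMeasure (law μ b (m + N) T false) := hprob false
  by_contra hcon
  rw [not_le] at hcon
  have hzero : ∀ x : ℝ, ext a b (m + N) T true ≤ x →
      (law μ b (m + N) T true).real (Set.Ioi x) = 0 := by
    intro x hx
    have h1 : (law μ b (m + N) T true) (Set.Ioi x) = 0 :=
      measure_mono_null (Set.Ioi_subset_Ioi hx) (hhi true)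
    rw [measureReal_def, h1, ENNReal.toReal_zero]
  have h1 : ext a b (m + N) T false ≤ t := by
    by_contra h1
    rw [not_le] at h1
    have h2 : (law μ b (m + N) T false).real (Set.Ioi t) = 1 := by
      have h3 : (law μ b (m + N) T false) (Set.Ioi t)ᶜ = 0 := by
        refine measure_mono_null ?_ (hlo false)
        intro y hy
        rw [Set.mem_compl_iff, Set.mem_Ioi, not_lt] at hy
        exact lt_of_le_of_lt hy h1
      have h4 : (law μ b (m + N) T false) (Set.Ioi t) = 1 :=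
        (prob_compl_eq_zero_iff measurableSet_Ioi).1 h3
      rw [measureReal_def, h4, ENNReal.toReal_one]
    rw [h2] at hcon
    have h5 : (law μ b (m + N) T true).real (Set.Ioi (t + (S - η))) ≤ 1 := measureReal_le_one
    linarith
  have h2 : t + (S - η) < ext a b (m + N) T true := by
    by_contra h2
    rw [not_lt] at h2
    rw [hzero _ h2] at hcon
    have h5 : 0 ≤ (law μ b (m + N) T false).real (Set.Ioi t) := measureReal_nonneg
    linarith
  have hx0 : 0 ≤ t + (S - η) := by linarith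
  have hxη : t + (S - η) + η = t + S := by ring
  have hcut : (law μ b (m + N) T true).real (Set.Ioi (t + (S - η))) ≤
      d * ε + (law μ b (m + N) T true).real (Set.Ioi (t + S)) := by
    have h1 := modl hLPR hMOD μ a b hg d (m + N) ε η hε.le hη.le hu' (by omega) T hT true _ hx0
    rw [hxη] at h1
    have h2 : Set.Ioi (t + (S - η)) ⊆ Set.Ioc (t + (S - η)) (t + S) ∪ Set.Ioi (t + S) := by
      intro y hy
      rcases le_or_gt y (t + S) with h | h
      · exact Or.inl ⟨hy, h⟩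
      · exact Or.inr h
    have h3 := (measureReal_mono h2 (measure_ne_top (law μ b (m + N) T true) _)).trans
      (measureReal_union_le _ _)
    linarith
  have hslack : slack S (law μ b (m + N) T false) (law μ b (m + N) T true) t ≤ min θ θz := by
    unfold slack
    linarith
  have hzz := (hz (m + N) (by omega) S T hT t (hslack.trans (min_le_right _ _))).2
  have h3 : t + S ≤ ext a b (m + N) T true := by
    by_contra h3
    rw [not_le] at h3
    exact hzz ⟨by linarith, by linarith⟩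
  have hSt : St μ a b (m + N) S η T t t (S₀ / 16) 0 θ := by
    refine ⟨?_, t, by linarith, by linarith, ?_⟩
    · intro z hz1 hz2
      have hzt : z = t := le_antisymm hz2 hz1
      refine ⟨t, ?_, h1, h3, hslack.trans (min_le_left _ _)⟩
      rw [hzt, sub_self, abs_zero]
      linarith
    · unfold Crit
      rw [show t + S - η = t + (S - η) by ring]
      exact hcon
  obtain ⟨T', α', β', hT', hαβ', hSt'⟩ := hit m hm1 S hS hDom η 0 (S₀ / 16) t t hη.le hη8 le_rfl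
    (by linarith) le_rfl (by linarith) le_rfl T hT hSt
  have hle : α' ≤ β' := by nlinarith
  obtain ⟨x1, hx1, hx1a, -, -⟩ := hSt'.1 α' le_rfl hle
  obtain ⟨x2, hx2, -, hx2b, -⟩ := hSt'.1 β' hle le_rfl
  obtain ⟨-, hlo0', -, hhib', -, -⟩ := hLPR μ a b hg m T'
  rw [hNρ] at hx1 hx2
  rw [abs_le] at hx1 hx2
  linarith [hx1.1, hx1.2, hx2.1, hx2.2]

end Pool.Agent.H880.MX.Shift
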